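import Pool.Agent.V7H41.CC.Spec

/-!
# Averaging over permutations
-/

set_option autoImplicit false

open Finset

namespace Pool.Agent.V7H46.CC

open Pool.Agent.V7H41.CC

theorem t_AVG (hP : S_PERM) (hS : S_SUM) : S_AVG := by
  intro n m hm hmn
  classical
  have hfin : Fintype (Finpartition (univ : Finset (Fin n))) := Fintype.ofFinite _
  have h2 := hS n m hm hmn
  set R : ℝ := ∑ r ∈ Icc 1 m, (n.choose (m + r) : ℝ) * r.factorial * W m r / (m + r).factorial with hR
  obtain ⟨T, hT⟩ : ∃ T : Finset (Finpartition (univ : Finset (Fin n))),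
      ∀ P, P ∈ T ↔ SepP (fun i => (i : ℕ)) P ∧ P.parts.card = n - m :=
    ⟨univ.filter (fun P => SepP (fun i => (i : ℕ)) P ∧ P.parts.card = n - m), fun P => by simp⟩
  have hTc : {P : Finpartition (univ : Finset (Fin n)) |
      SepP (fun i => (i : ℕ)) P ∧ P.parts.card = n - m} = (T : Set _) := by
    ext P
    rw [Set.mem_setOf_eq, mem_coe, hT]
  rw [hTc, finsum_mem_coe_finset] at h2
  have hn0 : (0 : ℝ) < n.factorial := by exact_mod_cast n.factorial_pos
  -- each partition
  have key : ∀ P : Finpartition (univ : Finset (Fin n)),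
      ({σ : Equiv.Perm (Fin n) | SepP (fun i => (σ i : ℕ)) P}.ncard : ℝ) ≤ n.factorial *
        (((nt P).card.factorial * ∏ A ∈ nt P, A.card.factorial : ℕ) /
          ((∑ A ∈ nt P, A.card).factorial : ℝ)) := by
    intro P
    have h3 := hP n P
    have h4 : (0 : ℝ) < (∑ A ∈ nt P, A.card).factorial := by exact_mod_cast Nat.factorial_pos _
    rw [← mul_div_assoc, le_div_iff₀ h4]
    have h5 : n.factorial * (nt P).card.factorial * ∏ A ∈ nt P, A.card.factorial =
        n.factorial * ((nt P).card.factorial * ∏ A ∈ nt P, A.card.factorial) := by ring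
    rw [h5] at h3
    exact_mod_cast h3
  -- double counting
  have hsum : ∑ σ : Equiv.Perm (Fin n),
      (({P : Finpartition (univ : Finset (Fin n)) | SepP (fun i => (i : ℕ)) P ∧
        SepP (fun i => (σ i : ℕ)) P ∧ P.parts.card = n - m}.ncard : ℕ) : ℝ) =
      ∑ P ∈ T, ({σ : Equiv.Perm (Fin n) | SepP (fun i => (σ i : ℕ)) P}.ncard : ℝ) := by
    have e1 : ∀ σ : Equiv.Perm (Fin n),
        (({P : Finpartition (univ : Finset (Fin n)) | SepP (fun i => (i : ℕ)) P ∧
          SepP (fun i => (σ i : ℕ)) P ∧ P.parts.card = n - m}.ncard : ℕ) : ℝ) =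
        ∑ P ∈ T, if SepP (fun i => (σ i : ℕ)) P then (1 : ℝ) else 0 := by
      intro σ
      have e2 : {P : Finpartition (univ : Finset (Fin n)) | SepP (fun i => (i : ℕ)) P ∧
          SepP (fun i => (σ i : ℕ)) P ∧ P.parts.card = n - m} =
          ((T.filter fun P => SepP (fun i => (σ i : ℕ)) P : Finset _) : Set _) := by
        ext P
        rw [Set.mem_setOf_eq, mem_coe, mem_filter, hT]
        tauto
      rw [e2, Set.ncard_coe_finset, card_filter]
      push_cast
      rfl
    have e3 : ∀ P : Finpartition (univ : Finset (Fin n)),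
        ({σ : Equiv.Perm (Fin n) | SepP (fun i => (σ i : ℕ)) P}.ncard : ℝ) =
        ∑ σ : Equiv.Perm (Fin n), if SepP (fun i => (σ i : ℕ)) P then (1 : ℝ) else 0 := by
      intro P
      have e4 : {σ : Equiv.Perm (Fin n) | SepP (fun i => (σ i : ℕ)) P} =
          ((univ.filter fun σ : Equiv.Perm (Fin n) => SepP (fun i => (σ i : ℕ)) P : Finset _) : Set _) := by
        ext σ
        simp
      rw [e4, Set.ncard_coe_finset, card_filter]
      push_cast
      rfl
    rw [sum_congr rfl fun σ _ => e1 σ, sum_congr rfl fun P _ => e3 P, sum_comm]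
  by_contra hcon
  push Not at hcon
  have h6 : (n.factorial : ℝ) * R < ∑ σ : Equiv.Perm (Fin n),
      (({P : Finpartition (univ : Finset (Fin n)) | SepP (fun i => (i : ℕ)) P ∧
        SepP (fun i => (σ i : ℕ)) P ∧ P.parts.card = n - m}.ncard : ℕ) : ℝ) := by
    have h7 : (n.factorial : ℝ) * R = ∑ _σ : Equiv.Perm (Fin n), R := by
      rw [sum_const, card_univ, Fintype.card_perm, Fintype.card_fin, nsmul_eq_mul]
    rw [h7]
    exact sum_lt_sum_of_nonempty ⟨1, mem_univ _⟩ fun σ _ => hcon σ
  have h8 : ∑ P ∈ T, ({σ : Equiv.Perm (Fin n) | SepP (fun i => (σ i : ℕ)) P}.ncard : ℝ) ≤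
      n.factorial * R := by
    refine (sum_le_sum fun P _ => key P).trans ?_
    rw [← mul_sum]
    exact mul_le_mul_of_nonneg_left h2 hn0.le
  rw [hsum] at h6
  linarith

end Pool.Agent.V7H46.CC
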