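import Pool.Agent.V7H41.CC.Spec2

/-!
# The average is close to the binomial coefficient
-/

set_option autoImplicit false

open Finset

namespace Pool.Agent.V7H46.CC

open Pool.Agent.V7H41.CC

lemma choose_le (n m r : ℕ) (hr : 1 ≤ r) :
    n.choose (m + r) * (m + r).factorial ≤ n.choose (m + 1) * (m + 1).factorial * n ^ (r - 1) := by
  have h1 := Nat.descFactorial_mul_descFactorial (n := n) (k := m + 1) (m := m + r) (by omega)
  have h2 : (n - (m + 1)).descFactorial (m + r - (m + 1)) ≤ n ^ (r - 1) := by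
    have h3 : m + r - (m + 1) = r - 1 := by omega
    rw [h3]
    exact (Nat.descFactorial_le_pow _ _).trans (Nat.pow_le_pow_left (Nat.sub_le _ _) _)
  rw [Nat.descFactorial_eq_factorial_mul_choose n (m + r),
    Nat.descFactorial_eq_factorial_mul_choose n (m + 1)] at h1
  calc n.choose (m + r) * (m + r).factorial = (m + r).factorial * n.choose (m + r) := mul_comm _ _
    _ = (n - (m + 1)).descFactorial (m + r - (m + 1)) * ((m + 1).factorial * n.choose (m + 1)) := h1.symm
    _ ≤ n ^ (r - 1) * ((m + 1).factorial * n.choose (m + 1)) := Nat.mul_le_mul_right _ h2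
    _ = _ := by ring

lemma term_le (hW : S_WB) (n m r : ℕ) (hr : 1 ≤ r) (hrm : r ≤ m) :
    (n.choose (m + r) : ℝ) * r.factorial * W m r / (m + r).factorial ≤
      (n.choose (m + 1) : ℝ) * ((7 * (n : ℝ)) ^ (r - 1) * ((m + 1).factorial : ℝ) * (r.factorial : ℝ) *
        ((m - r + 2).factorial : ℝ) / ((m + r).factorial : ℝ) ^ 2) := by
  have hf : (0 : ℝ) < (m + r).factorial := by exact_mod_cast Nat.factorial_pos _
  have h1 : (n.choose (m + r) : ℝ) * (m + r).factorial ≤
      (n.choose (m + 1) : ℝ) * (m + 1).factorial * (n : ℝ) ^ (r - 1) := by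
    exact_mod_cast choose_le n m r hr
  have h2 : (W m r : ℝ) ≤ (7 : ℝ) ^ (r - 1) * ((m - r + 2).factorial : ℝ) := by
    exact_mod_cast hW m r hr hrm
  have h3 : (n.choose (m + r) : ℝ) ≤
      (n.choose (m + 1) : ℝ) * (m + 1).factorial * (n : ℝ) ^ (r - 1) / (m + r).factorial := by
    rw [le_div_iff₀ hf]
    exact h1
  calc (n.choose (m + r) : ℝ) * r.factorial * W m r / (m + r).factorial
      ≤ ((n.choose (m + 1) : ℝ) * (m + 1).factorial * (n : ℝ) ^ (r - 1) / (m + r).factorial) *
        r.factorial * ((7 : ℝ) ^ (r - 1) * ((m - r + 2).factorial : ℝ)) / (m + r).factorial := by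
        gcongr
    _ = _ := by
        rw [mul_pow]
        field_simp

theorem t_AVB (hW : S_WB) (hR : S_RHO) : S_AVB := by
  obtain ⟨n₀, h0⟩ := hR
  refine ⟨max n₀ 1, fun n m hn hm hmn => ?_⟩
  have hn1 : 1 ≤ n := (le_max_right _ _).trans hn
  have hm1 : 1 ≤ m := by
    by_contra h
    have : m = 0 := by omega
    subst this
    omega
  have h1 := h0 n m ((le_max_left _ _).trans hn) hm hmn
  have h2 : Icc 1 m = insert 1 (Icc 2 m) := by
    ext x
    simp only [mem_Icc, mem_insert]
    omega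
  have h3 : (1 : ℕ) ∉ Icc 2 m := by simp
  rw [h2, sum_insert h3]
  have hc : (0 : ℝ) ≤ n.choose (m + 1) := Nat.cast_nonneg _
  have hf : (0 : ℝ) < (m + 1).factorial := by exact_mod_cast Nat.factorial_pos _
  have h4 : (n.choose (m + 1) : ℝ) * (1 : ℕ).factorial * W m 1 / (m + 1).factorial ≤ n.choose (m + 1) := by
    have h5 := hW m 1 le_rfl hm1
    have h6 : m - 1 + 2 = m + 1 := by omega
    rw [h6, Nat.sub_self, pow_zero, one_mul] at h5
    have h7 : (W m 1 : ℝ) ≤ (m + 1).factorial := by exact_mod_cast h5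
    rw [div_le_iff₀ hf, Nat.factorial_one, Nat.cast_one, mul_one]
    exact mul_le_mul_of_nonneg_left h7 hc
  have h5 : ∑ r ∈ Icc 2 m, (n.choose (m + r) : ℝ) * r.factorial * W m r / (m + r).factorial ≤
      (n.choose (m + 1) : ℝ) * (100 * (n : ℝ) / (m : ℝ) ^ 3) := by
    refine le_trans (sum_le_sum fun r hr => ?_) (le_trans (le_of_eq (mul_sum _ _ _).symm)
      (mul_le_mul_of_nonneg_left h1 hc))
    rw [mem_Icc] at hr
    exact term_le hW n m r (by omega) hr.2
  calc _ ≤ (n.choose (m + 1) : ℝ) + (n.choose (m + 1) : ℝ) * (100 * (n : ℝ) / (m : ℝ) ^ 3) :=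
        add_le_add h4 h5
    _ = _ := by ring

end Pool.Agent.V7H46.CC
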